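import Pool.Agent.Y693.GL.Asm
import Pool.Agent.TH839.UH.Fin2

/-!
# Zeros of the derivatives of the L-functions of elliptic curves over abelian number fields

Let `E` be an elliptic curve over `ℚ` of conductor `N`, `K` an abelian number field of conductor prime to
`N` (given by its group `G` of Dirichlet characters, `[K : ℚ] = card G`), and `Λ(s) = Λ(E/K, s)` the
completed L-function of `E` over `K`, a product of `[K : ℚ]` L-functions of degree two.

The Riemann hypothesis for `L(E/K, s)` implies that all zeros of all derivatives `Λ^(n)` are on the line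
`Re s = 1`.  We prove, without any hypothesis: the number of zeros of `Λ^(n)` with `0 < Im s ≤ T` that are
off the line or multiple is at most `C e^(-c n) T log T`, uniformly in `n ≥ 0` and `T ≥ 2`, where `c > 0` and
`C` depend only on `E` and `K`.  The number of all zeros of `Λ^(n)` up to height `T` is `≫ T log T` in the
range `n ≤ A log T` (any `A`), and for `n` larger than a multiple of `log T` there are no bad zeros at all
up to height `T`.  So the proportion of the zeros of `Λ^(n)` that are on the line and simple is at least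
`1 - C' e^(-c n)` at every height `T ≥ T0` with the same `T0` for all `n`; it tends to `1` exponentially fast
with `n`.

For `n ≥ 1` and `[K : ℚ] > 1` the function `Λ^(n)` is not a product, and to our knowledge the methods of
Levinson and Conrey give no positive proportion of its zeros.  The proof here is multiplicative: for every factor
(a twist of the newform of `E` by a Dirichlet character) most points of the line are good at all
scales `a / log T`: the logarithmic derivative is close to its main term in the right part of the disc of that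
radius (mollified mean squares with shifted convolution sums); the product is then good at the same points,
and at a good point the zeros of `Λ^(n)`, `n ≥ a`, are on the line and simple.

The modules are `Pool.Agent.Y693.GL` (twists, products, this assembly), over the joint project
`Pool.Agent.Y671.GL`, `Pool.Agent.Y671.LD` (helper671 and helpers 46, 67, 157, 175, 180, 228, 275, 287, 317,
412, 423, 494, 660, 771) and the starting modules `Pool.Agent.H24R2.DZ` and `Pool.Agent.TH839.UH`.
-/

set_option autoImplicit false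

open Complex UpperHalfPlane MatrixGroups CongruenceSubgroup
open scoped ComplexConjugate

namespace Pool.Agent.Results.MP_fb225e_nt.DerivativesDensityAbelian

/-! ### Elliptic curves over `ℚ` and abelian number fields -/

/-- The coefficient `a_p` of `E : y² = x³ + a x + b` at a prime `p ∤ 2 (4a³ + 27b²)`: `p` minus the
number of pairs `(x, y)` modulo `p` with `y² ≡ x³ + a x + b (mod p)`. -/
noncomputable def ap (a b : ℤ) (p : ℕ) : ℤ :=
  (p : ℤ) - (((Finset.range p ×ˢ Finset.range p).filter
    (fun xy : ℕ × ℕ => (p : ℤ) ∣ (xy.2 : ℤ) ^ 2 -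
      ((xy.1 : ℤ) ^ 3 + a * (xy.1 : ℤ) + b))).card : ℤ)

/-- The `n`-th Fourier coefficient of `f`. -/
noncomputable def coef {N : ℕ} (f : CuspForm (Gamma0 N : Subgroup (GL (Fin 2) ℝ)) 2) (n : ℕ) : ℂ :=
  (qExpansion 1 f).coeff n

/-- `f ∈ S_2(Γ₀(N))` is the newform of the elliptic curve `E : y² = x³ + a x + b` of conductor `N` and
root number `w`: the Fourier coefficients `c(n)` of `f` are real with `c(1) = 1`, they satisfy the
Hecke relations `c(mn) = c(m) c(n)` for coprime `m`, `n` and `c(p^(j+2)) = c(p) c(p^(j+1)) - p c(p^j)`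
(without the last term if `p ∣ N`), `f(-1/(Nτ)) = -w N τ² f(τ)`, `c(p) = a_p(E)` for all primes
`p ∤ 2 (4a³ + 27b²)`, `|c(p)| ≤ 2 √p` for all `p ∤ N` (Hasse) and `c(p) = 0, 1, -1` for `p ∣ N`. -/
structure IsFormOf (a b : ℤ) (N : ℕ) (f : CuspForm (Gamma0 N : Subgroup (GL (Fin 2) ℝ)) 2) (w : ℝ) :
    Prop where
  one : coef f 1 = 1
  real : ∀ n, (coef f n).im = 0
  mul : ∀ m n : ℕ, Nat.Coprime m n → coef f (m * n) = coef f m * coef f n
  pow : ∀ p j : ℕ, p.Prime → coef f (p ^ (j + 2)) = coef f p * coef f (p ^ (j + 1)) -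
      (if p ∣ N then 0 else (p : ℂ) * coef f (p ^ j))
  sign : w = 1 ∨ w = -1
  fricke : ∀ τ τ' : ℍ, (τ' : ℂ) * ((N : ℂ) * (τ : ℂ)) = -1 →
    f τ' = -(w : ℂ) * (N : ℂ) * (τ : ℂ) ^ 2 * f τ
  points : ∀ p : ℕ, p.Prime → ¬ (p : ℤ) ∣ 2 * (4 * a ^ 3 + 27 * b ^ 2) → coef f p = (ap a b p : ℂ)
  good : ∀ p : ℕ, p.Prime → ¬ p ∣ N → ‖coef f p‖ ≤ 2 * Real.sqrt p
  bad : ∀ p : ℕ, p.Prime → p ∣ N → coef f p = 0 ∨ coef f p = 1 ∨ coef f p = -1

/-- The completed L-function of the twist of `E` by `χ` modulo `q`, for `Re s > 3/2`: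
`(√N q / 2π)^s Γ(s) ∑ c(n) χ(n) n^(-s)`. -/
noncomputable def twist {N : ℕ} (f : CuspForm (Gamma0 N : Subgroup (GL (Fin 2) ℝ)) 2) {q : ℕ}
    (χ : DirichletCharacter ℂ q) (s : ℂ) : ℂ :=
  ((Real.sqrt N * q / (2 * Real.pi) : ℝ) : ℂ) ^ s * Complex.Gamma s *
    ∑' n : ℕ, coef f (n + 1) * χ ((n + 1 : ℕ) : ZMod q) * ((n + 1 : ℕ) : ℂ) ^ (-s)

section
variable {M : ℕ} (G : Subgroup (DirichletCharacter ℂ M)) [Fintype G]

/-- `Λ = Λ(E/K, s)`, where `K` is the abelian number field with the group `G` of Dirichlet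
characters: `Λ` is entire and, for large real part, it is the product over `χ` in `G` of the completed
L-functions of the twists of `E` by the primitive character associated with `χ`. -/
def IsCompleted {N : ℕ} (f : CuspForm (Gamma0 N : Subgroup (GL (Fin 2) ℝ)) 2) (Λ : ℂ → ℂ) : Prop :=
  Differentiable ℂ Λ ∧ ∃ σ : ℝ, ∀ s : ℂ, σ ≤ s.re →
    Λ s = ∏ χ : G, twist f (χ : DirichletCharacter ℂ M).primitiveCharacter s

end

/-! ### Counting zeros -/

/-- The zeros of `F` with `0 < Im s ≤ T`. -/
def zeros (F : ℂ → ℂ) (T : ℝ) : Set ℂ := {s | F s = 0 ∧ 0 < s.im ∧ s.im ≤ T}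

/-- The zeros of `F` with `0 < Im s ≤ T` that are off the line `Re s = 1` or not simple. -/
def badZeros (F : ℂ → ℂ) (T : ℝ) : Set ℂ := {s | s ∈ zeros F T ∧ (s.re ≠ 1 ∨ deriv F s = 0)}

/-- The number of elements of `A`, counted with their multiplicity as zeros of `F`. -/
noncomputable def count (F : ℂ → ℂ) (A : Set ℂ) : ENNReal := ∑' s : A, (analyticOrderNatAt F s : ENNReal)

/-- The statements on the zeros of the derivatives of `Λ`.

* `bad_le`: at most `C e^(-c n) T log T` zeros of `Λ^(n)` up to height `T` are off the line or multiple,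
  for all `n ≥ 0` and `T ≥ 2`.
* `all_ge`: `Λ^(n)` has at least `b T log T` zeros up to height `T`, if `n ≤ A log T`.
* `ratio`: the bad zeros of `Λ^(n)` are at most the fraction `C e^(-c n)` of all zeros of `Λ^(n)` up to
  height `T`, for all `n ≥ 0` and all `T ≥ T0`. -/
structure DerivativeZeros (Λ : ℂ → ℂ) : Prop where
  bad_le : ∃ c C : ℝ, 0 < c ∧ 0 < C ∧ ∀ (n : ℕ) (T : ℝ), 2 ≤ T →
    count (iteratedDeriv n Λ) (badZeros (iteratedDeriv n Λ) T) ≤
      ENNReal.ofReal (C * Real.exp (-(c * n)) * (T * Real.log T))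
  all_ge : ∀ A : ℝ, 1 ≤ A → ∃ b T0 : ℝ, 0 < b ∧ 2 ≤ T0 ∧ ∀ (n : ℕ) (T : ℝ), T0 ≤ T →
    n ≤ A * Real.log T →
    ENNReal.ofReal (b * (T * Real.log T)) ≤ count (iteratedDeriv n Λ) (zeros (iteratedDeriv n Λ) T)
  ratio : ∃ c C T0 : ℝ, 0 < c ∧ 0 < C ∧ 2 ≤ T0 ∧ ∀ (n : ℕ) (T : ℝ), T0 ≤ T →
    count (iteratedDeriv n Λ) (badZeros (iteratedDeriv n Λ) T) ≤ ENNReal.ofReal (C * Real.exp (-(c * n))) *
      count (iteratedDeriv n Λ) (zeros (iteratedDeriv n Λ) T)

/-- **Main theorem.**  Let `E : y² = x³ + a x + b` be an elliptic curve over `ℚ` with newform `f` of level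
`N`, and let `K` be an abelian number field of conductor prime to `N`, given by its group `G` of Dirichlet
characters modulo `M`.  Then `Λ(E/K, s)` exists, is unique, has a functional equation, and
`DerivativeZeros` holds for it. -/
theorem result : ∀ (a b : ℤ) (N : ℕ) [NeZero N] (f : CuspForm (Gamma0 N : Subgroup (GL (Fin 2) ℝ)) 2) (w : ℝ),
    4 * a ^ 3 + 27 * b ^ 2 ≠ 0 → IsFormOf a b N f w →
    ∀ (M : ℕ) [NeZero M] (G : Subgroup (DirichletCharacter ℂ M)) [Fintype G], Nat.Coprime M N →
    ∃ Λ : ℂ → ℂ, IsCompleted G f Λ ∧ (∀ Λ' : ℂ → ℂ, IsCompleted G f Λ' → Λ' = Λ) ∧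
      (∃ W : ℂ, ‖W‖ = 1 ∧ ∀ s : ℂ, Λ (2 - s) = W * conj (Λ (conj s))) ∧
      DerivativeZeros Λ := by
  obtain ⟨C, hC, -, H2⟩ := Pool.Agent.TH839.UH.flow_all
  intro a b N _ f w _ hf M _ G _ hco
  have hf' : Pool.Agent.W169.HF.IsForm N f w :=
    { one := hf.one
      real := hf.real
      mul := hf.mul
      pow := hf.pow
      sign := hf.sign
      fricke := hf.fricke
      good := hf.good
      bad := fun p hp hpN => by
        have h1 : (1 : ℝ) ≤ Real.sqrt p := by
          rw [Real.one_le_sqrt]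
          exact_mod_cast hp.one_le
        have h2 : ‖coef f p‖ ≤ 1 := by
          rcases hf.bad p hp hpN with h | h | h <;> simp [h]
        exact h2.trans h1 }
  obtain ⟨Λ, h1, h2, h3, h4⟩ := H2 N f w M G hf' hco
  have h5 := Pool.Agent.Y693.GL.der_ab hC G hf' hco h1 h2 h4
  exact ⟨Λ, ⟨h1, h2⟩, fun Λ' h' => Pool.Agent.W355.UN.Pk.uniq h1 h'.1 h2 h'.2, h3,
    ⟨h5.bad_le, h5.all_ge, h5.ratio⟩⟩

end Pool.Agent.Results.MP_fb225e_nt.DerivativesDensityAbelian
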