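import Pool.Agent.Y19.QT.ME

/-!
# The Riemann hypothesis for elliptic curves over multiquadratic fields, on average

`E : y² = x³ + a x + b` is an elliptic curve over `ℚ`, `K₀ = ℚ(√e_1, …, √e_m)` a fixed multiquadratic
field (for example `K₀ = ℚ`), `K = K₀(√d_1, …, √d_n)` runs through the extensions of degree `2ⁿ` of `K₀`
generated by square roots of squarefree integers `d_i`, `|d_i| ≤ X`, and `E_{d₀}` through the quadratic
twists of `E` by squarefree `d₀`, `|d₀| ≤ X`.  We prove, without any hypothesis, for all `E` with
`j`-invariant `0` or `1728` and for all quadratic twists of `X₀(11)` and `X₀(14)`, and for every elliptic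
curve over `ℚ` whose quadratic twists are modular, that the number of zeros with `Re s ≥ σ`, `|Im s| ≤ U`
of all the functions `L(E_{d₀}/K, s)`, which are entire, is at most
`C (1 + U)^B X^(n + 1 - c (σ - 1)) (log X)^A` for all `σ ≥ 1`, and that for all these pairs except
`O(X^(n + 1) / (log X)^k)` every zero `ρ` with `Re ρ > 3/4`, at any height, satisfies
`|Re ρ - 1| < k' (log log X + log (2 + |Im ρ|)) / log X`.

Method: the density theorem for the quadratic twists over `ℚ` (a large sieve inequality for quadratic
characters with a loss of a power of `log X` only, and a mollifier), the factorisation of `L(E/K, s)`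
(comparison of the Euler products over the ring of integers of `K`), and a bound, with a saving of a
power of `X`, for sums of sparse functions over the square classes of products of tuples.
-/

set_option autoImplicit false

namespace Pool.Agent.Results.MP_fb225e_nt.MultiquadraticZeroDensity

open Pool.Agent.Y19.QT

theorem result : (∀ a b : ℤ, Fam a b → MultiDensityLaw a b) ∧
    ∀ a b : ℤ, 4 * a ^ 3 + 27 * b ^ 2 ≠ 0 → TwistsModular a b → MultiDensityLaw a b :=
  ⟨fun _ _ h => multiDensity_fam h, fun _ _ hab h => multiDensity_modular hab h⟩

end Pool.Agent.Results.MP_fb225e_nt.MultiquadraticZeroDensity
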