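import Pool.Agent.W164.RC.Bad
import Pool.Agent.Y693.R2.Final

/-!
# The zeros of `L(E/K, s)` on average over the ray class fields `K` of `ℚ(i)`

`E_D : y² = x³ - D x`, `D` a non-zero Gaussian integer (these are, up to isomorphism, the elliptic
curves over `ℚ(i)` with `j = 1728`), and `K_r` is the ray class field of `ℚ(i)` of modulus `q = m r`,
where `m`, divisible by `2 + 2i`, is fixed and `r` runs through the Gaussian integers coprime to `m`
with `X < N(r) ≤ Y`; `K_r` contains a fourth root of `D = D_r` (for `D = 1`, always).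

We prove that on average over `r`, at least 88.83 per cent of the zeros of `L(E_D/K_r, s)` with
`T < Im s ≤ 2T` are on the line `Re s = 1`, for all `T` between `C (1 + √(log X))` and `X^η`.  Nothing is
assumed; the continuation of `L(E_D/K_r, s)` is part of the result.  (For a single ray class field the
same has only been shown with 67.25 per cent.)

Proof.  (1) `L(E_D/K_r, s)` is, up to finitely many Euler factors, the product of the L-functions of the
Hecke characters `ψ_E χ`, `χ` a character modulo `m r`, and of the conjugate ones.  (2) A sharp large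
sieve inequality (the constant is the mass of the family, for sums up to length `X^(2-ε)` in the norm)
for the primitive characters modulo `r`, `r` coprime to `m`, on average over `r`, twisted by all
characters modulo `m`; it doubles the support of the test functions of the explicit formula compared
to a single modulus.  (3) The pair correlation method for this family, which consists of the
characters whose `r`-part is primitive; each character modulo `m s` belongs to such a family
for exactly one divisor of `s` (up to units), and the characters with small conductor do not matter.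
-/

set_option autoImplicit false

open Complex NumberField IsDedekindDomain

namespace Pool.Agent.Results.MP_fb225e_nt.RayClassAverage8883

/-- `K` is the ray class field of `ℚ(i)` of modulus `q`: `ι` embeds `ℤ[i]` into the ring of integers
of `K`, and `art` is the Artin map, a homomorphism from `(ℤ[i]/q)ˣ` to the group of automorphisms of
the ring of integers of `K` (equivalently of `K`) such that
* `ℤ[i]` is the ring of invariants (so `K/ℚ(i)` is Galois and its group is the image of `art`),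
* the kernel consists of the classes of the units of `ℤ[i]` (so the Galois group is the ray class
  group modulo `q`),
* `K/ℚ(i)` is unramified outside `q`: the inertia group at every prime `v` of `K` not dividing `q`
  is trivial,
* for every prime `π` of `ℤ[i]` not dividing `q`, `art π` is the Frobenius automorphism
  `x ↦ x ^ N(π)` at all primes `v` of `K` above `π`. -/
structure IsRayClassField (q : GaussianInt) (K : Type) [Field K] [NumberField K]
    (ι : GaussianInt →+* 𝓞 K)
    (art : (GaussianInt ⧸ Ideal.span {q})ˣ →* (𝓞 K ≃+* 𝓞 K)) : Prop where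
  invariants : ∀ x : 𝓞 K, (∀ u, art u x = x) ↔ x ∈ ι.range
  kernel : ∀ u : (GaussianInt ⧸ Ideal.span {q})ˣ, art u = 1 ↔
    ∃ e : GaussianIntˣ, (u : GaussianInt ⧸ Ideal.span {q}) = Ideal.Quotient.mk _ (e : GaussianInt)
  unramified : ∀ v : HeightOneSpectrum (𝓞 K), ι q ∉ v.asIdeal →
    ∀ u, (∀ x, art u x - x ∈ v.asIdeal) → art u = 1
  frobenius : ∀ π : GaussianInt, Prime π → ∀ u : (GaussianInt ⧸ Ideal.span {q})ˣ,
    (u : GaussianInt ⧸ Ideal.span {q}) = Ideal.Quotient.mk _ π →
    ∀ v : HeightOneSpectrum (𝓞 K), ι π ∈ v.asIdeal →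
      ∀ x : 𝓞 K, art u x - x ^ π.norm.natAbs ∈ v.asIdeal

/-- `1 - a n^(-s) + ε n^(1-2s)` -/
noncomputable def localPoly (a ε : ℤ) (n : ℕ) (s : ℂ) : ℂ :=
  1 - (a : ℂ) * (n : ℂ) ^ (-s) + (ε : ℂ) * (n : ℂ) ^ (1 - 2 * s)

/-- the `(a, ε)` which are possible for the Euler factor `(1 - a n^(-s) + ε n^(1-2s))⁻¹` of an
elliptic curve at a place with `n` residue classes: `ε = 1` and `a² ≤ 4 n` (good reduction, Hasse) or
`ε = 0` and `a ∈ {-1, 0, 1}` (bad reduction) -/
def Possible (n : ℕ) (a ε : ℤ) : Prop := (ε = 1 ∧ a ^ 2 ≤ 4 * (n : ℤ)) ∨ (ε = 0 ∧ a ^ 2 ≤ 1)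

section
variable {K : Type} [Field K] [NumberField K]

/-- the places of `K` dividing `q` or `D` -/
def exceptional (q : GaussianInt) (ι : GaussianInt →+* 𝓞 K) (D : GaussianInt) :
    Set (HeightOneSpectrum (𝓞 K)) :=
  {v | ι q ∈ v.asIdeal ∨ ι D ∈ v.asIdeal}

open Classical in
/-- The Euler factor at `v` of `y² = x³ - D x`.  If `v` does not divide `q D` (then it does not divide
`2 D`, the reduction is good) it is `(1 - a_v (Nv)^(-s) + (Nv)^(1-2s))⁻¹`, where `a_v` is `Nv` minus
the number of affine solutions `(x, y)` of the equation over the residue field `𝓞 K / v`; for the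
finitely many other places it is the factor given by `(a v, ε v)`. -/
noncomputable def factor (q : GaussianInt) (ι : GaussianInt →+* 𝓞 K) (D : GaussianInt)
    (a ε : HeightOneSpectrum (𝓞 K) → ℤ) (s : ℂ) (v : HeightOneSpectrum (𝓞 K)) : ℂ :=
  if v ∈ exceptional q ι D then (localPoly (a v) (ε v) (Ideal.absNorm v.asIdeal) s)⁻¹
  else (localPoly (((Ideal.absNorm v.asIdeal : ℕ) : ℤ) -
      ((Nat.card {p : (𝓞 K ⧸ v.asIdeal) × (𝓞 K ⧸ v.asIdeal) //
        p.2 ^ 2 = p.1 ^ 3 - Ideal.Quotient.mk v.asIdeal (ι D) * p.1} : ℕ) : ℤ)) 1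
      (Ideal.absNorm v.asIdeal) s)⁻¹

end

/-- The zeros of `F` with `Re s > 1/2` and `T < Im s ≤ 2T`. -/
def zeros (F : ℂ → ℂ) (T : ℝ) : Set ℂ :=
  {s : ℂ | 1 / 2 < s.re ∧ T < s.im ∧ s.im ≤ 2 * T ∧ F s = 0}

/-- The number of these zeros, counted with multiplicity. -/
noncomputable def N (F : ℂ → ℂ) (T : ℝ) : ℕ := ∑ᶠ s ∈ zeros F T, analyticOrderNatAt F s

/-- The number of those of them that lie on the line `Re s = 1`, counted with multiplicity. -/
noncomputable def N₀ (F : ℂ → ℂ) (T : ℝ) : ℕ :=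
  ∑ᶠ s ∈ {s : ℂ | s ∈ zeros F T ∧ s.re = 1}, analyticOrderNatAt F s

/-- a curve `y² = x³ - D x` over the ray class field `K` of `ℚ(i)` of modulus `q`: `D ≠ 0` is a Gaussian
integer with a fourth root in `K`, and `(a v, ε v)` is a possible Euler factor for each of the finitely
many places `v` dividing `q D`. -/
structure Curve (q : GaussianInt) where
  K : Type
  [field : Field K]
  [numberField : NumberField K]
  ι : GaussianInt →+* 𝓞 K
  art : (GaussianInt ⧸ Ideal.span {q})ˣ →* (𝓞 K ≃+* 𝓞 K)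
  isRayClassField : IsRayClassField q K ι art
  D : GaussianInt
  D_ne : D ≠ 0
  root : ∃ d : 𝓞 K, d ^ 4 = ι D
  a : HeightOneSpectrum (𝓞 K) → ℤ
  ε : HeightOneSpectrum (𝓞 K) → ℤ
  possible : ∀ v ∈ exceptional q ι D, Possible (Ideal.absNorm v.asIdeal) (a v) (ε v)

attribute [instance] Curve.field Curve.numberField

/-- the degree `[K : ℚ(i)]`, the order of the Galois group -/
noncomputable def Curve.degree {q : GaussianInt} (E : Curve q) : ℕ := Nat.card E.art.range

/-- `L` is the L-function of the curve over `K`: it is analytic for `Re s > 1/2`, it is the product of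
the Euler factors for `Re s > 3/2`, and its product with the local polynomials at the finitely many
places dividing `q D` is the restriction of an entire function. -/
def IsLFunction {q : GaussianInt} (E : Curve q) (L : ℂ → ℂ) : Prop :=
  AnalyticOnNhd ℂ L {s : ℂ | 1 / 2 < s.re} ∧
    (∀ s : ℂ, 3 / 2 < s.re → HasProd (factor q E.ι E.D E.a E.ε s) (L s)) ∧
    (exceptional q E.ι E.D).Finite ∧
    ∃ F : ℂ → ℂ, Differentiable ℂ F ∧ ∀ s : ℂ, 1 / 2 < s.re →
      F s = L s * ∏ᶠ v ∈ exceptional q E.ι E.D,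
        localPoly (E.a v) (E.ε v) (Ideal.absNorm v.asIdeal) s

/-- the `r` coprime to `m` with `X < N(r) ≤ Y` -/
def moduli (m : GaussianInt) (X Y : ℕ) : Set GaussianInt :=
  {r : GaussianInt | IsCoprime r m ∧ (X : ℤ) < r.norm ∧ r.norm ≤ Y}

/-- the sum over these `r` with weights `N(r)⁻²` -/
noncomputable def total {m : GaussianInt} {X Y : ℕ} (f : moduli m X Y → ℝ) : ℝ :=
  ∑ᶠ r : moduli m X Y, f r / ((r : GaussianInt).norm : ℝ) ^ 2

open Pool.Agent.Y693.R2 (Fq)

/-- the L-function over one ray class field -/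
theorem one_field (q : GaussianInt) (hq : q ≠ 0) (h2 : (⟨2, 2⟩ : GaussianInt) ∣ q)
    (K : Type) [Field K] [NumberField K] (ι : GaussianInt →+* 𝓞 K)
    (art : (GaussianInt ⧸ Ideal.span {q})ˣ →* (𝓞 K ≃+* 𝓞 K)) (hK : IsRayClassField q K ι art)
    (D : GaussianInt) (hD : D ≠ 0) (hd : ∃ d : 𝓞 K, d ^ 4 = ι D)
    (a ε : HeightOneSpectrum (𝓞 K) → ℤ)
    (hpos : ∀ v ∈ exceptional q ι D, Possible (Ideal.absNorm v.asIdeal) (a v) (ε v)) :
    ∃ L : ℂ → ℂ, (AnalyticOnNhd ℂ L {s : ℂ | 1 / 2 < s.re} ∧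
      (∀ s : ℂ, 3 / 2 < s.re → HasProd (factor q ι D a ε s) (L s)) ∧
      (exceptional q ι D).Finite ∧
      (∃ F : ℂ → ℂ, Differentiable ℂ F ∧ ∀ s : ℂ, 1 / 2 < s.re →
        F s = L s * ∏ᶠ v ∈ exceptional q ι D,
          localPoly (a v) (ε v) (Ideal.absNorm v.asIdeal) s)) ∧
      ∀ T : ℝ, zeros L T = Pool.Agent.W164.RC.zerosH (Fq q) T ∧
        N L T = Pool.Agent.W164.RC.NH (Fq q) T ∧ N₀ L T = Pool.Agent.W164.RC.NH₀ (Fq q) T := by
  classical
  have hK' : Pool.Agent.W164.RC.IsRayClassField q K ι art :=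
    ⟨hK.invariants, hK.kernel, hK.unramified, hK.frobenius⟩
  obtain ⟨hF, hprod⟩ := Pool.Agent.Y693.R2.Fq_props q hq h2
  obtain ⟨hcard, hprod⟩ := hprod K ι art hK'
  obtain ⟨d, hd⟩ := hd
  have hιinj : Function.Injective ι := by
    rw [injective_iff_map_eq_zero]
    intro b hb
    by_contra h0
    have h3 : ι ((b.norm : ℤ) : GaussianInt) = 0 := by
      rw [Zsqrtd.norm_eq_mul_conj, map_mul, hb, zero_mul]
    rw [map_intCast] at h3
    have h4 : b.norm = 0 := by exact_mod_cast h3
    exact h0 (GaussianInt.norm_eq_zero.1 h4)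
  have hιq : ι q ≠ 0 := fun h => hq (hιinj (by rw [h, map_zero]))
  have hDK : ι D ≠ 0 := fun h => hD (hιinj (by rw [h, map_zero]))
  have hfin : (exceptional q ι D).Finite :=
    (Pool.Agent.W164.RC.places_finite hιq).union (Pool.Agent.W164.RC.places_finite hDK)
  set S : Finset (HeightOneSpectrum (𝓞 K)) := hfin.toFinset with hS
  have hmemS : ∀ v, v ∈ S ↔ v ∈ exceptional q ι D := fun v => by rw [hS]; simp
  have hn2 : ∀ v : HeightOneSpectrum (𝓞 K), 2 ≤ Ideal.absNorm v.asIdeal :=
    fun v => Pool.Agent.H921R2.TatePole.two_le_nm v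
  have hlp : ∀ (a ε : ℤ) (n : ℕ) (s : ℂ), localPoly a ε n s = Pool.Agent.W164.RC.lpoly a ε n s :=
    fun _ _ _ _ => rfl
  -- places over two
  have htwo : ∀ v : HeightOneSpectrum (𝓞 K), ι q ∉ v.asIdeal →
      (Pool.Agent.H921R2.TatePole.below v : ℕ) ≠ 2 := by
    intro v hv hb
    apply hv
    have h7 := (Pool.Agent.H921R2.TatePole.nm_eq v).2.2
    rw [hb] at h7
    have h4 : ι ⟨1, 1⟩ ∈ v.asIdeal := by
      have h5 : ι ⟨1, 1⟩ * ι ⟨1, 1⟩ ∈ v.asIdeal := by
        have e : ((⟨1, 1⟩ : GaussianInt) * ⟨1, 1⟩) = ⟨0, 1⟩ * ((2 : ℕ) : GaussianInt) := by decide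
        rw [← map_mul, e, map_mul, map_natCast]
        exact v.asIdeal.mul_mem_left _ h7
      rcases v.isPrime.mem_or_mem h5 with h | h <;> exact h
    obtain ⟨c, rfl⟩ := (show (⟨1, 1⟩ : GaussianInt) ∣ ⟨2, 2⟩ from ⟨2, by decide⟩).trans h2
    rw [map_mul]
    exact v.asIdeal.mul_mem_right _ h4
  -- the numerator at the exceptional places not dividing `q`
  set g : HeightOneSpectrum (𝓞 K) → ℂ → ℂ := fun v s =>
    if ι q ∈ v.asIdeal then 1
    else Pool.Agent.W164.RC.lpoly (Pool.Agent.W164.RC.tr v) 1 (Ideal.absNorm v.asIdeal) s with hg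
  have hgdiff : ∀ v, Differentiable ℂ (g v) := by
    intro v
    rw [hg]
    by_cases h : ι q ∈ v.asIdeal
    · simp only [if_pos h]
      exact differentiable_const _
    · simp only [if_neg h]
      exact Pool.Agent.W164.RC.lpoly_diff _ _ (hn2 v)
  have hgne : ∀ v (s : ℂ), 1 / 2 < s.re → g v s ≠ 0 := by
    intro v s hs
    rw [hg]
    by_cases h : ι q ∈ v.asIdeal
    · simp only [if_pos h]
      exact one_ne_zero
    · simp only [if_neg h]
      exact Pool.Agent.W164.RC.lpoly_ne (hn2 v) (Pool.Agent.W164.RC.tr_poss v (htwo v h)) hs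
  set P : HeightOneSpectrum (𝓞 K) → ℂ → ℂ := fun v s =>
    Pool.Agent.W164.RC.lpoly (a v) (ε v) (Ideal.absNorm v.asIdeal) s with hP
  have hPdiff : ∀ v, Differentiable ℂ (P v) := fun v => Pool.Agent.W164.RC.lpoly_diff _ _ (hn2 v)
  have hPne : ∀ v ∈ S, ∀ s : ℂ, 1 / 2 < s.re → P v s ≠ 0 := by
    intro v hv s hs
    exact Pool.Agent.W164.RC.lpoly_ne (hn2 v) (hpos v ((hmemS v).1 hv)) hs
  set R : ℂ → ℂ := fun s => ∏ v ∈ S, (g v s * (P v s)⁻¹) with hR
  have hRan : ∀ s : ℂ, 1 / 2 < s.re → AnalyticAt ℂ R s := by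
    intro s hs
    rw [hR]
    apply Finset.analyticAt_fun_prod
    intro v hv
    exact ((hgdiff v).analyticAt s).mul (((hPdiff v).analyticAt s).inv (hPne v hv s hs))
  have hRne : ∀ s : ℂ, 1 / 2 < s.re → R s ≠ 0 := by
    intro s hs
    rw [hR]
    simp only
    rw [Finset.prod_ne_zero_iff]
    intro v hv
    exact mul_ne_zero (hgne v s hs) (inv_ne_zero (hPne v hv s hs))
  have hzeros : ∀ T : ℝ, zeros (fun s => Fq q s * R s) T = Pool.Agent.W164.RC.zerosH (Fq q) T := by
    intro T
    ext s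
    constructor
    · rintro ⟨h1, h3, h4, h5⟩
      exact ⟨h1, h3, h4, (mul_eq_zero.1 h5).resolve_right (hRne s h1)⟩
    · rintro ⟨h1, h3, h4, h5⟩
      refine ⟨h1, h3, h4, ?_⟩
      show Fq q s * R s = 0
      rw [h5, zero_mul]
  have hord : ∀ s : ℂ, 1 / 2 < s.re →
      analyticOrderNatAt (fun s => Fq q s * R s) s = analyticOrderNatAt (Fq q) s := by
    intro s hs
    unfold analyticOrderNatAt
    rw [Pool.Agent.W164.RC.order_mul_ne (hF.analyticAt s) (hRan s hs) (hRne s hs)]
  have hN : ∀ T : ℝ, N (fun s => Fq q s * R s) T = Pool.Agent.W164.RC.NH (Fq q) T := by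
    intro T
    unfold N Pool.Agent.W164.RC.NH
    rw [hzeros]
    exact finsum_mem_congr rfl fun s hs => hord s hs.1
  have hN₀ : ∀ T : ℝ, N₀ (fun s => Fq q s * R s) T = Pool.Agent.W164.RC.NH₀ (Fq q) T := by
    intro T
    unfold N₀ Pool.Agent.W164.RC.NH₀
    rw [hzeros]
    exact finsum_mem_congr rfl fun s hs => hord s hs.1.1
  refine ⟨fun s => Fq q s * R s, ⟨?_, ?_, hfin, ?_⟩, ?_⟩
  · intro s hs
    exact (hF.analyticAt s).mul (hRan s hs)
  · intro s hs
    have hs' : 1 / 2 < s.re := by linarith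
    have h3 : HasProd (fun v : HeightOneSpectrum (𝓞 K) =>
        if v ∈ S then g v s * (P v s)⁻¹ else 1) (R s) := by
      have h4 : R s = ∏ v ∈ S, (if v ∈ S then g v s * (P v s)⁻¹ else 1) := by
        rw [hR]
        exact Finset.prod_congr rfl fun v hv => by rw [if_pos hv]
      rw [h4]
      apply hasProd_prod_of_ne_finset_one
      intro v hv
      rw [if_neg hv]
    have h5 := (hprod s hs).mul h3
    refine h5.congr_fun ?_
    intro v
    unfold factor
    by_cases hv : v ∈ exceptional q ι D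
    · rw [if_pos hv, if_pos ((hmemS v).2 hv), hlp]
      have hg1 := hgne v s hs'
      by_cases hvq : ι q ∈ v.asIdeal
      · rw [if_pos hvq]
        have : g v s = 1 := by rw [hg]; simp only [if_pos hvq]
        rw [this, one_mul, one_mul]
      · rw [if_neg hvq, Pool.Agent.W164.RC.eulerFactor_lpoly]
        have : g v s = Pool.Agent.W164.RC.lpoly (Pool.Agent.W164.RC.tr v) 1
            (Ideal.absNorm v.asIdeal) s := by rw [hg]; simp only [if_neg hvq]
        rw [← this, ← mul_assoc, inv_mul_cancel₀ hg1, one_mul]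
    · have hvS : v ∉ S := fun h => hv ((hmemS v).1 h)
      have hvq : ι q ∉ v.asIdeal := fun h => hv (Or.inl h)
      have hvD : ι D ∉ v.asIdeal := fun h => hv (Or.inr h)
      rw [if_neg hv, if_neg hvS, if_neg hvq, mul_one, Pool.Agent.W164.RC.eulerFactor_lpoly, hlp]
      have hmax : v.asIdeal.IsMaximal := v.isPrime.isMaximal v.ne_bot
      letI : Field (𝓞 K ⧸ v.asIdeal) := Ideal.Quotient.field v.asIdeal
      have hd4 : (Ideal.Quotient.mk v.asIdeal d) ^ 4 = Ideal.Quotient.mk v.asIdeal (ι D) := by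
        rw [← map_pow, hd]
      have hd0 : Ideal.Quotient.mk v.asIdeal d ≠ 0 := by
        intro h0
        rw [h0, zero_pow (by norm_num)] at hd4
        apply hvD
        rw [← Ideal.Quotient.eq_zero_iff_mem]
        exact hd4.symm
      have hct := Pool.Agent.W164.RC.card_twist (Ideal.Quotient.mk v.asIdeal d) hd0
      rw [hd4] at hct
      rw [hct]
      rfl
  · refine ⟨fun s => Fq q s * ∏ v ∈ S, g v s, ?_, ?_⟩
    · exact hF.mul (Differentiable.fun_finsetProd fun v _ => hgdiff v)
    · intro s hs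
      have h3 : ∏ᶠ v ∈ exceptional q ι D, localPoly (a v) (ε v) (Ideal.absNorm v.asIdeal) s =
          ∏ v ∈ S, P v s := by
        rw [← finprod_mem_coe_finset]
        have : (S : Set (HeightOneSpectrum (𝓞 K))) = exceptional q ι D := by
          ext v
          exact hmemS v
        rw [this]
        rfl
      rw [h3]
      show Fq q s * ∏ v ∈ S, g v s = Fq q s * R s * ∏ v ∈ S, P v s
      rw [hR, mul_assoc, ← Finset.prod_mul_distrib]
      congr 1
      refine Finset.prod_congr rfl fun v hv => ?_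
      rw [mul_assoc, inv_mul_cancel₀ (hPne v hv s hs), mul_one]
  · intro T
    exact ⟨hzeros T, hN T, hN₀ T⟩

/-- **Main theorem.** Let `m ≠ 0` be a Gaussian integer divisible by `2 + 2i`.  There are constants
`C`, `K₀` and `η > 0` such that for all `X`, `Y`, `T` with `K₀ X ≤ Y ≤ X ^ (1 + η)` and
`C (1 + √(log X)) ≤ T ≤ X ^ η` the following holds.  For each `r` coprime to `m` with `X < N(r) ≤ Y` let
`K_r` be the ray class field of `ℚ(i)` of modulus `m r` and `D_r ≠ 0` a Gaussian integer with a fourth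
root in `K_r`.  For every choice of possible Euler factors at the finitely many places dividing
`m r D_r` (for example the ones of `E : y² = x³ - D_r x`) there are functions `L_r`, analytic for
`Re s > 1/2`, which for `Re s > 3/2` are the products over all places `v` of `K_r` of the Euler factors of
`E`, whose products with the (finitely many) local polynomials at the places dividing `m r D_r` are
entire, and which have at least `2 [K_r : ℚ(i)] T` zeros with `Re s > 1/2` and `T < Im s ≤ 2T` (with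
multiplicity); and in the mean over `r` with weights `N(r)⁻²` at least 88.83% of these zeros are on
the line `Re s = 1`. -/
theorem result : ∀ m : GaussianInt, m ≠ 0 → (⟨2, 2⟩ : GaussianInt) ∣ m →
    ∃ C K₀ η : ℝ, 0 < η ∧ ∀ (X Y : ℕ) (T : ℝ), 1 ≤ X → K₀ * X ≤ Y → (Y : ℝ) ≤ (X : ℝ) ^ (1 + η) →
    C * (1 + Real.sqrt (Real.log X)) ≤ T → T ≤ (X : ℝ) ^ η →
    ∀ E : (r : moduli m X Y) → Curve (m * r),
    ∃ L : moduli m X Y → ℂ → ℂ,
      (∀ r, IsLFunction (E r) (L r) ∧ (zeros (L r) T).Finite ∧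
        2 * ((E r).degree : ℝ) * T ≤ (N (L r) T : ℝ)) ∧
      (moduli m X Y).Finite ∧
      0 < total (fun r : moduli m X Y => (N (L r) T : ℝ)) ∧
      0.8883 * total (fun r : moduli m X Y => (N (L r) T : ℝ)) ≤
        total (fun r : moduli m X Y => (N₀ (L r) T : ℝ)) := by
  classical
  intro m hm h2
  obtain ⟨C, K₀, η, hη, H⟩ := Pool.Agent.Y693.R2.main_R2 hm h2
  refine ⟨C, K₀, η, hη, fun X Y T hX hXY hYX hT hTX E => ?_⟩
  obtain ⟨H1, H2, H3⟩ := H X Y T hX hXY hYX hT hTX
  have hmem : ∀ r : GaussianInt, r ∈ Pool.Agent.Y693.R2.RS m X Y ↔ r ∈ moduli m X Y := by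
    intro r
    rw [Pool.Agent.Y693.R2.mem_RS']
    constructor
    · rintro ⟨h1, h3, h4, h5⟩
      exact ⟨h5, h3, h4⟩
    · rintro ⟨h5, h3, h4⟩
      refine ⟨?_, h3, h4, h5⟩
      rintro rfl
      have : (0 : GaussianInt).norm = 0 := Zsqrtd.norm_zero
      rw [this] at h3
      have : (0 : ℤ) ≤ X := Int.natCast_nonneg X
      linarith
  have hset : (Pool.Agent.Y693.R2.RS m X Y : Set GaussianInt) = moduli m X Y := by
    ext r
    exact hmem r
  have hne : ∀ r : moduli m X Y, (r : GaussianInt) ≠ 0 := fun r =>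
    ((Pool.Agent.Y693.R2.mem_RS').1 ((hmem r).2 r.2)).1
  have h1 : ∀ r : moduli m X Y, ∃ L : ℂ → ℂ, IsLFunction (E r) L ∧
      ∀ T : ℝ, zeros L T = Pool.Agent.W164.RC.zerosH (Fq (m * r)) T ∧
        N L T = Pool.Agent.W164.RC.NH (Fq (m * r)) T ∧
        N₀ L T = Pool.Agent.W164.RC.NH₀ (Fq (m * r)) T := by
    intro r
    exact one_field (m * r) (mul_ne_zero hm (hne r)) (h2.trans (Dvd.intro _ rfl)) (E r).K (E r).ι
      (E r).art (E r).isRayClassField (E r).D (E r).D_ne (E r).root (E r).a (E r).ε (E r).possible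
  choose L hL using h1
  have eN : total (fun r : moduli m X Y => (N (L r) T : ℝ)) =
      ∑ r ∈ Pool.Agent.Y693.R2.RS m X Y, (1 / (H385.nrm r : ℝ) ^ 2) *
      (Pool.Agent.W164.RC.NH (Fq (m * r)) T : ℝ) := by
    obtain ⟨g, hg⟩ : ∃ g : GaussianInt → ℝ, g = fun r => (1 / (H385.nrm r : ℝ) ^ 2) *
          (Pool.Agent.W164.RC.NH (Fq (m * r)) T : ℝ) := ⟨_, rfl⟩
    have e : total (fun r : moduli m X Y => (N (L r) T : ℝ)) = ∑ᶠ r : moduli m X Y, g r := by
      unfold total
      refine finsum_congr fun r => ?_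
      rw [hg]
      simp only
      rw [((hL r).2 T).2.1, Pool.Agent.Y693.R2.nrm_cast]
      ring
    rw [e, finsum_set_coe_eq_finsum_mem, ← hset, finsum_mem_coe_finset, hg]
  have eS : total (fun r : moduli m X Y => (N₀ (L r) T : ℝ)) =
      ∑ r ∈ Pool.Agent.Y693.R2.RS m X Y, (1 / (H385.nrm r : ℝ) ^ 2) *
      (Pool.Agent.W164.RC.NH₀ (Fq (m * r)) T : ℝ) := by
    obtain ⟨g, hg⟩ : ∃ g : GaussianInt → ℝ, g = fun r => (1 / (H385.nrm r : ℝ) ^ 2) *
          (Pool.Agent.W164.RC.NH₀ (Fq (m * r)) T : ℝ) := ⟨_, rfl⟩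
    have e : total (fun r : moduli m X Y => (N₀ (L r) T : ℝ)) = ∑ᶠ r : moduli m X Y, g r := by
      unfold total
      refine finsum_congr fun r => ?_
      rw [hg]
      simp only
      rw [((hL r).2 T).2.2, Pool.Agent.Y693.R2.nrm_cast]
      ring
    rw [e, finsum_set_coe_eq_finsum_mem, ← hset, finsum_mem_coe_finset, hg]
  refine ⟨L, ?_, ?_, by rw [eN]; exact H2, by rw [eN, eS]; exact H3⟩
  · intro r
    obtain ⟨g1, g5⟩ := hL r
    obtain ⟨e1, e2, e3⟩ := g5 T
    obtain ⟨k1, k2⟩ := H1 r ((hmem r).2 r.2)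
    refine ⟨g1, by rw [e1]; exact k1, ?_⟩
    rw [e2]
    have b1 := (E r).isRayClassField
    have hcard := Pool.Agent.W164.RC.ray_card (mul_ne_zero hm (hne r))
      (h2.trans (Dvd.intro _ rfl))
      (⟨b1.invariants, b1.kernel, b1.unramified, b1.frobenius⟩ :
        Pool.Agent.W164.RC.IsRayClassField (m * r) (E r).K (E r).ι (E r).art)
    have hcr : (4 : ℝ) * ((E r).degree : ℝ) = (H385.phiQ (m * r) : ℝ) := by
      unfold Curve.degree
      exact_mod_cast hcard
    rw [← hcr] at k2
    linarith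
  · rw [← hset]
    exact Finset.finite_toSet _

end Pool.Agent.Results.MP_fb225e_nt.RayClassAverage8883
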